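import Mathlib
import Pool.Agent.TH822.SR.Pair
import Pool.Agent.TH888.R.Sh
import Pool.Agent.W66.XG

set_option autoImplicit false

/-!
# Borel-Cantelli for pairs of proportional sequences
-/

namespace Pool.Agent.TH822.SR

open Finset MeasureTheory Filter Topology
open Pool.Agent.W66X (ysh measurable_ysh pert8 exp_ysh)
open Pool.Agent.H305R2 (roughPart ff measurable_ff ff_nonneg ff_le_one)
open Pool.Agent.H447R2.ML (ff_eq_floor)

lemma summable_sq : Summable (fun p : ℕ => (Real.log p / p) ^ 2) := by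
  have h : Summable (fun p : ℕ => 16 * (p : ℝ) ^ (-(3 / 2) : ℝ)) :=
    (Real.summable_nat_rpow.2 (by norm_num)).mul_left 16
  refine Summable.of_nonneg_of_le (fun p => sq_nonneg _) (fun p => ?_) h
  rcases Nat.eq_zero_or_pos p with h0 | h0
  · subst h0
    simp
  · have hp : (0 : ℝ) < p := by exact_mod_cast h0
    have h1 : (1 : ℝ) ≤ p := by exact_mod_cast h0
    have h2 : Real.log p ≤ 4 * (p : ℝ) ^ (1 / 4 : ℝ) := by
      have := Real.log_le_rpow_div hp.le (show (0 : ℝ) < 1 / 4 by norm_num)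
      linarith
    have h3 : 0 ≤ Real.log p := Real.log_nonneg h1
    have h4 : (Real.log p) ^ 2 ≤ (4 * (p : ℝ) ^ (1 / 4 : ℝ)) ^ 2 := by gcongr
    have h5 : ((p : ℝ) ^ (1 / 4 : ℝ)) ^ 2 = (p : ℝ) ^ (1 / 2 : ℝ) := by
      rw [← Real.rpow_natCast, ← Real.rpow_mul hp.le]
      norm_num
    rw [div_pow, div_le_iff₀ (by positivity)]
    have h6 : (p : ℝ) ^ (-(3 / 2) : ℝ) * (p : ℝ) ^ 2 = (p : ℝ) ^ (1 / 2 : ℝ) := by
      rw [← Real.rpow_natCast, ← Real.rpow_add hp]
      norm_num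
    calc (Real.log p) ^ 2 ≤ (4 * (p : ℝ) ^ (1 / 4 : ℝ)) ^ 2 := h4
      _ = 16 * ((p : ℝ) ^ (1 / 4 : ℝ)) ^ 2 := by ring
      _ = 16 * ((p : ℝ) ^ (-(3 / 2) : ℝ) * (p : ℝ) ^ 2) := by rw [h5, h6]
      _ = _ := by ring

/-- almost every phase has only finitely many common successes -/
theorem both_window {α κ C C' θ B : ℝ} (hα : 1 < α) (hκ0 : 0 ≤ κ) (hκ : κ < α) {g g' : ℕ → ℝ}
    (hg : ∀ p, |g p| ≤ C * κ ^ p) (hg' : ∀ p, |g' p| ≤ C' * κ ^ p) (hθ : 1 ≤ θ)
    (hdio : ∀ a b : ℕ, 1 ≤ a → 1 ≤ b → 1 ≤ |(a : ℝ) - b * θ| * (B * (a + b))) (b0 : ℝ) :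
    ∀ᵐ t ∂(volume.restrict (Set.Ioc b0 (b0 + 1))),
      {p : ℕ | ff p (ysh α g p t) = 1 ∧ ff p (ysh α g' p (t + Real.log θ)) = 1}.Finite := by
  obtain ⟨K, hK, P, hP⟩ := pair_int hα hκ0 hκ hg hg' hθ hdio b0
  set s : ℕ → Set ℝ := fun p => {t : ℝ | ff p (ysh α g p t) = 1 ∧
    ff p (ysh α g' p (t + Real.log θ)) = 1} with hs
  have hm1 : ∀ p, Measurable (fun t => ff p (ysh α g p t)) := fun p =>
    (measurable_ff p).comp (measurable_ysh _ _ _)
  have hm2 : ∀ p, Measurable (fun t => ff p (ysh α g' p (t + Real.log θ))) := fun p =>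
    (measurable_ff p).comp ((measurable_ysh α g' p).comp (measurable_id.add_const _))
  have hsm : ∀ p, MeasurableSet (s p) := fun p =>
    (measurableSet_eq_fun (hm1 p) measurable_const).inter (measurableSet_eq_fun (hm2 p) measurable_const)
  set μ := volume.restrict (Set.Ioc b0 (b0 + 1)) with hμ
  have hfin : ∀ p, μ (s p) ≠ ⊤ := fun p => (measure_lt_top μ _).ne
  have hval : ∀ p, (μ (s p)).toReal =
      ∫ t in Set.Ioc b0 (b0 + 1), ff p (ysh α g p t) * ff p (ysh α g' p (t + Real.log θ)) := by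
    intro p
    have e : (fun t => ff p (ysh α g p t) * ff p (ysh α g' p (t + Real.log θ))) =
        (s p).indicator (fun _ => (1 : ℝ)) := by
      funext t
      have h1 : ff p (ysh α g p t) = 0 ∨ ff p (ysh α g p t) = 1 := by
        unfold ff; split_ifs <;> simp
      have h2 : ff p (ysh α g' p (t + Real.log θ)) = 0 ∨ ff p (ysh α g' p (t + Real.log θ)) = 1 := by
        unfold ff; split_ifs <;> simp
      by_cases ht : t ∈ s p
      · rw [Set.indicator_of_mem ht, ht.1, ht.2, one_mul]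
      · rw [Set.indicator_of_notMem ht]
        rcases h1 with h1 | h1
        · rw [h1, zero_mul]
        · rcases h2 with h2 | h2
          · rw [h2, mul_zero]
          · exact absurd ⟨h1, h2⟩ ht
    rw [e, integral_indicator_const _ (hsm p)]
    simp [Measure.real, hμ]
  have hbc : (∑' p, μ (s (p + P))) ≠ ⊤ := by
    have h1 : ∀ p, μ (s (p + P)) ≤ ENNReal.ofReal (K * (Real.log ((p + P : ℕ) : ℝ) / ((p + P : ℕ) : ℝ)) ^ 2) := by
      intro p
      rw [← ENNReal.ofReal_toReal (hfin (p + P)), hval]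
      exact ENNReal.ofReal_le_ofReal (hP (p + P) (by omega))
    have h2 : Summable (fun p : ℕ => K * (Real.log ((p + P : ℕ) : ℝ) / ((p + P : ℕ) : ℝ)) ^ 2) :=
      ((summable_nat_add_iff P).2 summable_sq).mul_left K
    refine ne_top_of_le_ne_top ?_ (ENNReal.tsum_le_tsum h1)
    rw [← ENNReal.ofReal_tsum_of_nonneg (fun p => by positivity) h2]
    exact ENNReal.ofReal_ne_top
  filter_upwards [ae_finite_setOfPred_mem hbc] with t ht
  have h3 : {p : ℕ | ff p (ysh α g p t) = 1 ∧ ff p (ysh α g' p (t + Real.log θ)) = 1} ⊆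
      (Finset.range P : Set ℕ) ∪ (fun p => p + P) '' {p | t ∈ s (p + P)} := by
    intro p hp
    rcases lt_or_ge p P with h | h
    · left
      simpa using h
    · right
      refine ⟨p - P, ?_, Nat.sub_add_cancel h⟩
      simp only [Set.mem_ofPred_eq]
      rw [Nat.sub_add_cancel h]
      exact hp
  exact ((Finset.finite_toSet _).union (ht.image _)).subset h3

/-- **Pairs.** Almost every amplitude has only finitely many common successes. -/
theorem both_ae {α κ C C' θ B : ℝ} (hα : 1 < α) (hκ0 : 0 ≤ κ) (hκ : κ < α) {g g' : ℕ → ℝ}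
    (hg : ∀ p, |g p| ≤ C * κ ^ p) (hg' : ∀ p, |g' p| ≤ C' * κ ^ p) (hθ : 1 ≤ θ)
    (hdio : ∀ a b : ℕ, 1 ≤ a → 1 ≤ b → 1 ≤ |(a : ℝ) - b * θ| * (B * (a + b))) :
    ∀ᵐ β : ℝ, 0 < β → {p : ℕ | (roughPart p ⌊β * α ^ p + g p⌋₊).Prime ∧
      (roughPart p ⌊θ * β * α ^ p + g' p⌋₊).Prime}.Finite := by
  have hα0 : 0 < α := by linarith
  have hθ0 : 0 < θ := by linarith
  have hlθ : 0 ≤ Real.log θ := Real.log_nonneg hθ
  have hnull : ∀ g : ℕ → ℝ, ∀ c : ℝ, ∀ᵐ t : ℝ, ∀ p m : ℕ, Real.exp (t + c) * α ^ p + g p ≠ m := by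
    intro g c
    have hnull : volume (⋃ p : ℕ, ⋃ m : ℕ, {t : ℝ | Real.exp (t + c) * α ^ p + g p = m}) = 0 := by
      refine Set.Countable.measure_zero ?_ volume
      refine Set.countable_iUnion fun p => Set.countable_iUnion fun m => ?_
      refine Set.Subsingleton.countable ?_
      intro s hs t ht
      have hs' : Real.exp (s + c) * α ^ p + g p = m := hs
      have ht' : Real.exp (t + c) * α ^ p + g p = m := ht
      have h3 : Real.exp (s + c) * α ^ p = Real.exp (t + c) * α ^ p := by linarith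
      have h4 := Real.exp_injective (mul_right_cancel₀ (pow_pos hα0 p).ne' h3)
      linarith
    have hae : ∀ᵐ t : ℝ, t ∉ ⋃ p : ℕ, ⋃ m : ℕ, {t : ℝ | Real.exp (t + c) * α ^ p + g p = m} := by
      rw [ae_iff]
      refine measure_mono_null (fun t ht => ?_) hnull
      simpa only [Set.mem_ofPred_eq, not_not] using ht
    filter_upwards [hae] with t ht p m hm
    refine ht ?_
    simp only [Set.mem_iUnion]
    exact ⟨p, m, hm⟩
  refine Pool.Agent.W66X.ae_of_exp' (P := fun β : ℝ => {p : ℕ | (roughPart p ⌊β * α ^ p + g p⌋₊).Prime ∧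
      (roughPart p ⌊θ * β * α ^ p + g' p⌋₊).Prime}.Finite) (Pool.Agent.TH888.R.ae_windows fun b0 => ?_)
  filter_upwards [both_window hα hκ0 hκ hg hg' hθ hdio b0, ae_restrict_of_ae (hnull g 0),
    ae_restrict_of_ae (hnull g' (Real.log θ))] with t ht h1 h2
  obtain ⟨P, hP⟩ := eventually_atTop.1 ((pert8 hα0 hκ0 hκ hg t 8).and (pert8 hα0 hκ0 hκ hg' t 8))
  refine ((Finset.finite_toSet (Finset.range P)).union ht).subset fun p hp => ?_
  rcases lt_or_ge p P with h | h
  · left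
    simpa using h
  · right
    obtain ⟨hp1, hp2⟩ := hp
    obtain ⟨q1, q2⟩ := hP p h
    refine ⟨?_, ?_⟩
    · have h3 := ff_eq_floor (p := p) (exp_ysh hα0 q1 le_rfl).2.1 (fun m => by simpa using h1 p m)
      unfold ysh
      rw [h3, if_pos hp1]
    · have h4 : t ≤ t + Real.log θ := by linarith
      have h3 := ff_eq_floor (p := p) (exp_ysh hα0 q2 h4).2.1 (fun m => h2 p m)
      unfold ysh
      rw [h3]
      have e : Real.exp (t + Real.log θ) * α ^ p + g' p = θ * Real.exp t * α ^ p + g' p := by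
        rw [Real.exp_add, Real.exp_log hθ0]
        ring
      rw [e, if_pos hp2]

end Pool.Agent.TH822.SR
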