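import Mathlib
import Pool.Agent.TH888.LF.Gold

set_option autoImplicit false

/-!
# The negative Pell equation `p ^ 2 - 2 r ^ 2 = -1` and the powers of `1 + √2`
-/

namespace Pool.Agent.TH822.SR

open Filter Topology MeasureTheory
open Pool.Agent.H447R2.ML (U V closed U_pos V_pos rough_U lt_of_dvd_U lt_of_dvd_V roughPart_eq_self)
open Pool.Agent.H305R2 (roughPart)
open Pool.Agent.TH888.R (Near Pt pt_floor)

/-- the integers `H n` with `(1 + √2) ^ n = H n + P n √2` -/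
def H : ℕ → ℕ
  | 0 => 1
  | 1 => 1
  | (n + 2) => 2 * H (n + 1) + H n

/-- the integers `P n` with `(1 + √2) ^ n = H n + P n √2` -/
def P : ℕ → ℕ
  | 0 => 0
  | 1 => 1
  | (n + 2) => 2 * P (n + 1) + P n

lemma P_eq : ∀ n : ℕ, P n = U 2 n
  | 0 => rfl
  | 1 => rfl
  | (n + 2) => by
      show 2 * P (n + 1) + P n = 2 * U 2 (n + 1) + U 2 n
      rw [P_eq n, P_eq (n + 1)]

lemma H_eq : ∀ n : ℕ, 2 * H n = V 2 n
  | 0 => rfl
  | 1 => rfl
  | (n + 2) => by
      show 2 * (2 * H (n + 1) + H n) = 2 * V 2 (n + 1) + V 2 n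
      rw [← H_eq n, ← H_eq (n + 1)]
      ring

lemma succ_eq : ∀ n : ℕ, H (n + 1) = H n + 2 * P n ∧ P (n + 1) = H n + P n
  | 0 => by constructor <;> rfl
  | (n + 1) => by
      obtain ⟨h1, h2⟩ := succ_eq n
      constructor
      · show 2 * H (n + 1) + H n = H (n + 1) + 2 * P (n + 1)
        rw [h2, h1]; ring
      · show 2 * P (n + 1) + P n = H (n + 1) + P (n + 1)
        rw [h1, h2]; ring

lemma two_eq (n : ℕ) : H (n + 2) = 3 * H n + 4 * P n ∧ P (n + 2) = 2 * H n + 3 * P n := by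
  obtain ⟨h1, h2⟩ := succ_eq n
  obtain ⟨h3, h4⟩ := succ_eq (n + 1)
  rw [show n + 2 = n + 1 + 1 from rfl, h3, h4, h1, h2]
  constructor <;> ring

lemma norm_eq : ∀ n : ℕ, (H n : ℤ) ^ 2 - 2 * (P n : ℤ) ^ 2 = (-1) ^ n
  | 0 => by norm_num [H, P]
  | (n + 1) => by
      obtain ⟨h1, h2⟩ := succ_eq n
      rw [h1, h2, pow_succ (-1 : ℤ) n, ← norm_eq n]
      push_cast
      ring

lemma norm_odd {n : ℕ} (hn : Odd n) : H n ^ 2 + 1 = 2 * P n ^ 2 := by
  have h := norm_eq n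
  rw [hn.neg_one_pow] at h
  have : (H n : ℤ) ^ 2 + 1 = 2 * (P n : ℤ) ^ 2 := by linarith
  exact_mod_cast this

/-- all solutions of the negative Pell equation -/
lemma pell : ∀ (r : ℕ), 0 < r → ∀ p : ℕ, p ^ 2 + 1 = 2 * r ^ 2 → ∃ n, Odd n ∧ p = H n ∧ r = P n := by
  intro r
  induction r using Nat.strong_induction_on with
  | _ r ih =>
    intro hr p hp
    rcases Nat.lt_or_ge r 3 with h3 | h3
    · interval_cases r
      · have : p = 1 := by nlinarith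
        subst this
        exact ⟨1, odd_one, rfl, rfl⟩
      · have h1 : p < 3 := by nlinarith
        interval_cases p <;> omega
    · have h4 : 4 * r < 3 * p := by nlinarith
      have h5 : 2 * p < 3 * r := by nlinarith
      have h6 : r < p := by nlinarith
      obtain ⟨p', hp'⟩ : ∃ p', 3 * p = 4 * r + p' := ⟨3 * p - 4 * r, by omega⟩
      obtain ⟨r', hr'⟩ : ∃ r', 3 * r = 2 * p + r' := ⟨3 * r - 2 * p, by omega⟩
      have h7 : 0 < r' := by omega
      have h8 : r' < r := by omega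
      have h9 : p' ^ 2 + 1 = 2 * r' ^ 2 := by
        have e1 : (p' : ℤ) = 3 * p - 4 * r := by
          have : (3 * p : ℤ) = 4 * r + p' := by exact_mod_cast hp'
          linarith
        have e2 : (r' : ℤ) = 3 * r - 2 * p := by
          have : (3 * r : ℤ) = 2 * p + r' := by exact_mod_cast hr'
          linarith
        have e3 : (p : ℤ) ^ 2 + 1 = 2 * (r : ℤ) ^ 2 := by exact_mod_cast hp
        have : (p' : ℤ) ^ 2 + 1 = 2 * (r' : ℤ) ^ 2 := by
          rw [e1, e2]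
          linear_combination e3
        exact_mod_cast this
      obtain ⟨n, hn, hpn, hrn⟩ := ih r' h8 h7 p' h9
      refine ⟨n + 2, hn.add_even even_two, ?_, ?_⟩
      · rw [(two_eq n).1, ← hpn, ← hrn]; omega
      · rw [(two_eq n).2, ← hpn, ← hrn]; omega

lemma pow_eq : ∀ n : ℕ, (⟨1, 1⟩ : ℤ√2) ^ n = ⟨H n, P n⟩
  | 0 => by rw [pow_zero]; rfl
  | (n + 1) => by
      obtain ⟨h1, h2⟩ := succ_eq n
      rw [pow_succ, pow_eq n, Zsqrtd.ext_iff]
      simp only [Zsqrtd.re_mul, Zsqrtd.im_mul]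
      rw [h1, h2]
      push_cast
      constructor <;> ring

lemma pow_eq' : ∀ n : ℕ, (⟨1, -1⟩ : ℤ√2) ^ n = ⟨H n, -P n⟩
  | 0 => by rw [pow_zero]; rfl
  | (n + 1) => by
      obtain ⟨h1, h2⟩ := succ_eq n
      rw [pow_succ, pow_eq' n, Zsqrtd.ext_iff]
      simp only [Zsqrtd.re_mul, Zsqrtd.im_mul]
      rw [h1, h2]
      push_cast
      constructor <;> ring

/-- `H m` divides `H (m j)` for odd `j` -/
lemma H_dvd (m : ℕ) {j : ℕ} (hj : Odd j) : H m ∣ H (m * j) := by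
  have h := Odd.add_dvd_pow_add_pow ((⟨1, 1⟩ : ℤ√2) ^ m) ((⟨1, -1⟩ : ℤ√2) ^ m) hj
  rw [← pow_mul, ← pow_mul, pow_eq, pow_eq', pow_eq, pow_eq'] at h
  have e : ∀ k : ℕ, (⟨H k, P k⟩ + ⟨H k, -P k⟩ : ℤ√2) = ((2 * H k : ℤ) : ℤ√2) := by
    intro k
    rw [Zsqrtd.ext_iff]
    simp
    ring
  rw [e, e, Zsqrtd.intCast_dvd_intCast] at h
  have h2 : (H m : ℤ) ∣ H (m * j) := by
    exact (mul_dvd_mul_iff_left (by norm_num : (2 : ℤ) ≠ 0)).1 h
  exact_mod_cast h2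

lemma H_lt : ∀ n : ℕ, H (n + 1) < H (n + 2)
  | 0 => by decide
  | (n + 1) => by
      have := H_lt n
      show H (n + 2) < 2 * H (n + 2) + H (n + 1)
      omega

lemma H_mono {m n : ℕ} (hm : 1 ≤ m) (h : m < n) : H m < H n := by
  obtain ⟨a, rfl⟩ : ∃ a, m = a + 1 := ⟨m - 1, by omega⟩
  obtain ⟨b, rfl⟩ : ∃ b, n = b + 1 := ⟨n - 1, by omega⟩
  have hs : StrictMono (fun k => H (k + 1)) := strictMono_nat_of_lt_succ H_lt
  exact hs (by omega : a < b)

/-- if `H n` is prime and `n` is odd, then `n` is prime -/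
lemma prime_index {n : ℕ} (hn : Odd n) (h : (H n).Prime) : n.Prime := by
  by_contra hc
  have hn1 : n ≠ 1 := by
    rintro rfl
    exact Nat.not_prime_one h
  have hn0 : n ≠ 0 := by
    rintro rfl
    simp at hn
  have hn2 : 2 ≤ n := by omega
  obtain ⟨m, hm, hm1, hm2⟩ := Nat.exists_dvd_of_not_prime hn2 hc
  obtain ⟨j, rfl⟩ := hm
  have hj : Odd j := (Nat.odd_mul.1 hn).2
  have hm0 : m ≠ 0 := by
    rintro rfl
    simp at hn0
  have hj1 : 1 < j := by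
    rcases Nat.lt_or_ge 1 j with h1 | h1
    · exact h1
    · exfalso
      have : j ≠ 0 := by rintro rfl; simp at hn0
      have : j = 1 := by omega
      subst this
      simp at hm2
  have h1 := (Nat.dvd_prime h).1 (H_dvd m hj)
  have h2 : 1 < m := by omega
  have h3 : H 1 < H m := H_mono le_rfl h2
  have h4 : H m < H (m * j) := H_mono (by omega) (by nlinarith)
  have h5 : H 1 = 1 := rfl
  rcases h1 with h1 | h1 <;> omega

/-- the solutions with `p` prime have prime exponent -/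
lemma sol_prime {p r : ℕ} (hp : p.Prime) (h : p ^ 2 + 1 = 2 * r ^ 2) :
    ∃ n, n.Prime ∧ Odd n ∧ p = H n ∧ r = P n := by
  have hr : 0 < r := by
    rcases Nat.eq_zero_or_pos r with h0 | h0
    · subst h0; simp at h
    · exact h0
  obtain ⟨n, hn, h1, h2⟩ := pell r hr p h
  exact ⟨n, prime_index hn (h1 ▸ hp), hn, h1, h2⟩

/-! ### The base -/

/-- `α = 1 + √2` -/
lemma al_eq : (1 + Real.sqrt 2) = (((2 : ℕ) : ℝ) + Real.sqrt (((2 : ℕ) : ℝ) ^ 2 + 4)) / 2 := by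
  have h : Real.sqrt (((2 : ℕ) : ℝ) ^ 2 + 4) = 2 * Real.sqrt 2 := by
    rw [show (((2 : ℕ) : ℝ) ^ 2 + 4) = 2 ^ 2 * 2 by norm_num, Real.sqrt_mul (by norm_num),
      Real.sqrt_sq (by norm_num)]
  rw [h]
  push_cast
  ring

lemma ps_eq : (1 - Real.sqrt 2) = (((2 : ℕ) : ℝ) - Real.sqrt (((2 : ℕ) : ℝ) ^ 2 + 4)) / 2 := by
  have := al_eq
  push_cast at this ⊢
  linarith

lemma one_lt_al : 1 < 1 + Real.sqrt 2 := by
  have := Real.sqrt_pos.2 (show (0 : ℝ) < 2 by norm_num)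
  linarith

lemma sqrt2_lt : Real.sqrt 2 < 3 / 2 := by
  rw [Real.sqrt_lt' (by norm_num)]
  norm_num

lemma lt_sqrt2 : 1 < Real.sqrt 2 := by
  rw [Real.lt_sqrt (by norm_num)]
  norm_num

lemma ps_abs : |1 - Real.sqrt 2| < 1 := by
  rw [abs_lt]
  constructor <;> linarith [sqrt2_lt, lt_sqrt2]

lemma g_le (c : ℝ) (p : ℕ) : |(fun p : ℕ => c * (1 - Real.sqrt 2) ^ p) p| ≤ |c| * |1 - Real.sqrt 2| ^ p := by
  simp only
  rw [abs_mul, abs_pow]

lemma near (c : ℝ) : Near (1 + Real.sqrt 2) (fun p : ℕ => c * (1 - Real.sqrt 2) ^ p) := fun b0 =>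
  Pool.Agent.W66V.near_irr one_lt_al (abs_nonneg _) (ps_abs.trans one_lt_al) (g_le c) le_rfl one_lt_al
    (fun h a b hh ha hb => Pool.Agent.TH888.LF.dio (P := 2) two_pos al_eq h a b hh ha hb) b0

theorem pt (c : ℝ) (S : Set ℕ) : ∀ᵐ β : ℝ, 0 < β →
    Pt (fun p => ⌊β * (1 + Real.sqrt 2) ^ p + c * (1 - Real.sqrt 2) ^ p⌋₊)
      (Real.exp Real.eulerMascheroniConstant / Real.log (1 + Real.sqrt 2)) S :=
  pt_floor one_lt_al (abs_nonneg _) (ps_abs.trans one_lt_al) (g_le c) (near c) S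

lemma closed2 (n : ℕ) : (U 2 n : ℝ) * (2 * Real.sqrt 2) = (1 + Real.sqrt 2) ^ n - (1 - Real.sqrt 2) ^ n ∧
    (V 2 n : ℝ) = (1 + Real.sqrt 2) ^ n + (1 - Real.sqrt 2) ^ n :=
  closed 2 (s := 2 * Real.sqrt 2) (by rw [mul_pow, Real.sq_sqrt (by norm_num)]; norm_num)
    (by push_cast; ring) (by push_cast; ring) n

lemma rough_P {p : ℕ} (hp : p.Prime) (h5 : 5 < p) :
    roughPart p ⌊1 / (2 * Real.sqrt 2) * (1 + Real.sqrt 2) ^ p +
      -(1 / (2 * Real.sqrt 2)) * (1 - Real.sqrt 2) ^ p⌋₊ = P p := by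
  have hs := Real.sqrt_pos.2 (show (0 : ℝ) < 2 by norm_num)
  have e : 1 / (2 * Real.sqrt 2) * (1 + Real.sqrt 2) ^ p +
      -(1 / (2 * Real.sqrt 2)) * (1 - Real.sqrt 2) ^ p = (U 2 p : ℝ) := by
    have h := (closed2 p).1
    field_simp
    linarith
  rw [rough_U 2 two_pos hp h5.le ?_ e, P_eq]
  intro h
  have h1 : p ∣ 8 := by simpa using h
  have h2 : p ∣ 2 ^ 3 := by simpa using h1
  have h3 := hp.dvd_of_dvd_pow h2
  have := Nat.le_of_dvd (by norm_num) h3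
  omega

lemma H_pos (n : ℕ) : 0 < H n := by
  have h1 := H_eq n
  have h2 := V_pos 2 n two_pos
  omega

lemma H_odd : ∀ n : ℕ, Odd (H n)
  | 0 => odd_one
  | 1 => odd_one
  | (n + 2) => by
      show Odd (2 * H (n + 1) + H n)
      exact (even_two_mul _).add_odd (H_odd n)

lemma rough_H {p : ℕ} (hp : p.Prime) (h5 : 5 < p) :
    roughPart p ⌊1 / 2 * (1 + Real.sqrt 2) ^ p + 1 / 2 * (1 - Real.sqrt 2) ^ p⌋₊ = H p := by
  have h := (closed2 p).2
  have e : 1 / 2 * (1 + Real.sqrt 2) ^ p + 1 / 2 * (1 - Real.sqrt 2) ^ p = (H p : ℝ) := by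
    have h1 : (2 : ℝ) * H p = V 2 p := by exact_mod_cast H_eq p
    linarith
  rw [e, Nat.floor_natCast]
  refine roughPart_eq_self (H_pos p).ne' fun q hq hqV => ?_
  refine lt_of_dvd_V 2 hp h5.le (fun h1 => ?_) hq (fun h1 => ?_) ?_
  · have := Nat.le_of_dvd (by norm_num) h1
    omega
  · have h2 : q = 2 := (Nat.prime_dvd_prime_iff_eq hq Nat.prime_two).1 h1
    subst h2
    exact (Nat.not_even_iff_odd.2 (H_odd p)) (even_iff_two_dvd.2 hqV)
  · rw [← H_eq]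
    exact hqV.mul_left 2

end Pool.Agent.TH822.SR
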